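import Pool.Agent.U735.IL.Final

/-!
# Motivic t-structures: one prime `ℓ` suffices

Let `C = DM_c(k)` be the category of constructible Voevodsky motives with rational coefficients
over an arbitrary field `k` (of any characteristic), with the `ℓ`-adic realisations `R l`. As in the
library (`Pool.Agent.Y116.MT`), `C` is a rigid tensor triangulated category, and a realisation is a
tensor cohomology theory `H^i(X) = H(X[i])`; moreover `C` is `ℚ`-linear and `End(𝟙) = ℚ`. We use the
Chow motives in `C` with their known properties (`ChowMotives`): they are closed under sums,
summands, tensor products and duals; there are no morphisms `P ⟶ Q[m]` with `m > 0` between them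
(Voevodsky); all objects are iterated extensions of their shifts (Bondarko); the hard Lefschetz
theorem (Deligne); the Betti numbers of a Chow motive are independent of `ℓ` (Deligne, Katz and
Messing, by reduction to finite fields).

In the question the realisations have to be t-exact for **all** `ℓ`, and in positive characteristic
there is no comparison between them. It is shown that **one** prime `ℓ` suffices, with nothing
assumed on tensor products: a t-structure `t` on `C` is motivic (non-degenerate, compatible with the
tensor product, all `R l` t-exact) if and only if for one `ℓ` the realisation `R l` is conservative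
and t-exact for `t`; also if and only if `t` is almost motivic for one `ℓ` in the sense of the
starting hand-in `SmallErrors` (which needed this for all `ℓ`). In particular the t-structures which
are motivic with respect to two primes are equal.

Moreover, if this is so for one `ℓ`, then the trace of every endomorphism of every object `X` on
`H^n(X)` is a rational number which is independent of `ℓ`; so the Betti numbers of all objects, for
instance of the cohomology, with or without supports, of arbitrary varieties in positive
characteristic, are independent of `ℓ`, as is the characteristic polynomial of Frobenius.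

The proof: by the hard Lefschetz theorem the t-homogeneous parts of a Chow motive are Chow motives
(the decomposition of Deligne), and by the independence of the Betti numbers the other realisations
of the parts are in the same degree. The morphisms in the heart between parts of different weights
vanish, and those between parts of the same weight are von Neumann regular, so that iterated
extensions of shifted parts can be reordered by their degrees: every object is an iterated extension
of parts in increasing degrees. The traces are computed in the heart, where they are traces in `C`.
-/

set_option autoImplicit false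

open CategoryTheory Limits MonoidalCategory Pretriangulated Triangulated

universe v u w

namespace Pool.Agent.Results.MP_6d0ce9_ag.OnePrimeSuffices

open Pool.Agent.Y116.MT Pool.Agent.V1178.MT Pool.Agent.U735.IL

/-- A t-structure is motivic (for all `l`) if and only if, for one `l`, the realisation `R l` is
conservative and t-exact, and if and only if it is almost motivic for one `l`. The traces of
endomorphisms on the cohomology are then rational and independent of `l`. -/
theorem result {C : Type u} [Category.{v} C] [Preadditive C] [HasZeroObject C] [HasShift C ℤ]
    [∀ n : ℤ, (shiftFunctor C n).Additive] [Pretriangulated C] [IsTriangulated C]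
    [MonoidalCategory C] [SymmetricCategory C] [TensorTriangulated C] [MonoidalPreadditive C]
    [RightRigidCategory C] [Linear ℚ C] (hQ : ∀ e : 𝟙_ C ⟶ 𝟙_ C, ∃ q : ℚ, e = q • 𝟙 (𝟙_ C))
    {Λ : Type*} [Nonempty Λ] {E : Λ → Type w} [∀ l, Field (E l)]
    (R : ∀ l, Realisation C (E l)) (Chow : ObjectProperty C) (T : C)
    (hC : ChowMotives Chow T R) (t : TStructure C) :
    (IsMotivic t R ↔ ∃ l, Conservative (R l) ∧ TExact t (R l)) ∧
    (IsMotivic t R ↔ ∃ l, IsAlmostMotivic t (fun _ : Unit => R l)) ∧
    (IsMotivic t R → TracesIndependent R) := by
  have hid := unit_idem hQ
  have h2 : IsMotivic t R → ∀ l, Conservative (R l) ∧ TExact t (R l) := by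
    intro ht l
    exact ⟨(good_of_motivic hid ht l).cons, (good_of_motivic hid ht l).he⟩
  have h4 : (∃ l, Conservative (R l) ∧ TExact t (R l)) → IsMotivic t R := by
    rintro ⟨l, hc, he⟩
    exact motivic_of_one hQ hC hc he
  obtain ⟨l0⟩ := ‹Nonempty Λ›
  refine ⟨⟨fun ht => ⟨l0, h2 ht l0⟩, h4⟩, ⟨fun ht => ⟨l0, ?_⟩, ?_⟩, fun ht X f n => ?_⟩
  · exact almost_of_motivic hid ⟨ht.nondeg_le, ht.nondeg_ge, ht.tensor_le, ht.tensor_ge,
      fun _ => ht.exact_le l0, fun _ => ht.exact_ge l0⟩
  · rintro ⟨l, hl⟩
    have h5 : IsMotivic t (fun _ : Unit => R l) := motivic_of_almost hl
    obtain ⟨u, hc⟩ := hl.conservative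
    exact h4 ⟨l, hc, ⟨h5.exact_le u, h5.exact_ge u⟩⟩
  · exact trace_indep hQ (fun l => (h2 ht l).2) f n

end Pool.Agent.Results.MP_6d0ce9_ag.OnePrimeSuffices
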