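import Pool.Agent.U735.PC.Main

/-!
# The motivic t-structure in positive characteristic (MP_6d0ce9_ag)

Let `F` be a finite field. `𝓜 : FieldMotives F Λ E` are the categories `𝓜.mot K = DM_c(K)` of
constructible motives over all extensions `K` of `F` (that is, over all fields of characteristic `p`,
if `F` is the prime field) with their `ℓ`-adic realisations, with their known functoriality (base
change, specialisation, push-forward for finite extensions, objects are defined over finitely
generated subfields). For a purely transcendental extension `K` of `F` of finite degree,
`FunctionFieldData` are known properties of the motives over `K`, the function field of a smooth
geometrically connected variety over `F`: Chow motives and the hard Lefschetz theorem, the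
action of the geometric Galois group on the cohomology, which is semisimple on Chow motives
(Deligne), and the spreading out of objects and morphisms over an open subvariety together with the
push-forward to `F`. `FiniteFieldData` are known properties of the motives over the finite field
`F`: Chow motives, the Frobenius endomorphism, and the Weil conjectures (Deligne, Katz-Messing).

Theorem. **For every extension `K` of `F`, the following are equivalent:**

* **there is a motivic t-structure on the constructible motives over `K`;**
* **Parshin's conjecture holds over `F` (the higher rational Chow groups of smooth projective
  varieties over `F` vanish), and rational and numerical equivalence of cycles with rational
  coefficients coincide on smooth projective varieties over `F`.**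

So Q1 for one field of characteristic `p`, whichever it is, is equivalent to Q1 for all fields of
characteristic `p`, and to two older conjectures about smooth projective varieties over the prime
field, the second of them about algebraic cycles only. Neither the Tate conjecture nor any other
conjecture is assumed.

Proof. The descent of a motivic t-structure from `K` to `F`: the truncations over `K` of an object
over `F` specialise. Over `F`, the realisations are faithful on the heart, so the idempotents which
the Weil conjectures give (coprime characteristic polynomials of the Frobenius) split Chow motives,
and everything which maps to the part of degree `≠ 0` from the unit is zero, as Frobenius is the
identity of the unit; this gives Parshin's conjecture and, with the Koszul argument of the library,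
the equality of rational and numerical equivalence. Conversely, the two conjectures imply that Chow
motives over `F` are sums of Chow motives in one degree with zero or von Neumann regular morphisms
between the shifts, so that iterated extensions can be reordered, which gives the t-structure over
`F`. The passage from `F` to its function fields uses the motive over `F` of the invariants of
the geometric Galois group: by semisimplicity it is compatible with duality, so that it can be
used to invert the hard Lefschetz isomorphisms and to split off the motives of subrepresentations.
Then finite extensions and unions of fields.
-/

set_option autoImplicit false
set_option linter.checkUnivs false

open CategoryTheory

universe v u w x y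

namespace Pool.Agent.Results.MP_6d0ce9_ag.PositiveCharacteristic

open Pool.Agent.Y116.MT Pool.Agent.U435.UD Pool.Agent.U735.SO Pool.Agent.U735.FF
  Pool.Agent.U735.PC

/-- Let `F` be a finite field. There is a motivic t-structure on the motives over an extension `K`
of `F` if and only if Parshin's conjecture holds over `F` and rational and numerical equivalence
coincide over `F`. -/
theorem result (F : Type x) [Field F] [Finite F] (Λ : Type) [Nonempty Λ] (E : Λ → Type w)
    [∀ l, Field (E l)] (𝓜 : FieldMotives.{v, u, w, x} F Λ E)
    (h : ∀ (K : Type x) [Field K] [Algebra F K], PurelyTr F K →
      ∃ l : Λ, Nonempty (FunctionFieldData.{v, u, w, y} (𝓜.mot F) (𝓜.mot K) l))
    (D : FiniteFieldData (𝓜.mot F)) (K : Type x) [Field K] [Algebra F K] :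
    HasMotivic (𝓜.mot K) ↔ Parshin D.Chow ∧ RationalEqualsNumerical D.Chow :=
  (iff_base 𝓜 h K).trans D.iff

end Pool.Agent.Results.MP_6d0ce9_ag.PositiveCharacteristic
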