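import Pool.Agent.U735.SO.Main

/-!
# The motivic t-structure over all fields and over the prime fields (MP_6d0ce9_ag)

Let `F` be a field, for instance a prime field. `𝓜 : FieldSystem F Λ E` are the categories
`𝓜.mot K` of constructible motives over all extensions `K` of `F` with their realisations, with
their known functoriality (base change, push-forward for finite extensions, objects are defined
over finitely generated subfields). For a purely transcendental extension `K` of `F` of finite
degree, `FunctionFieldData` are known properties of the motives over `K`, the function field of a
smooth geometrically connected variety over `F`: Chow motives and the hard Lefschetz theorem, the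
action of the geometric Galois group on the cohomology, which is semisimple on Chow motives
(Deligne), and the spreading out of objects and morphisms over an open subvariety `U` together with
the push-forward from `U` to `F`.

Theorem. **There is a motivic t-structure on the motives over `F` if and only if there is one on the
motives over every extension of `F`.** So Q1 for all fields is equivalent to Q1 for the prime
fields. No conjecture is assumed.

Proof. Let there be a motivic t-structure over `F`. Let `K` be a function field over `F`. For an
object `Z` over `K` with cohomology in degrees `≥ 0`, the truncation in degree zero of the
push-forward of a spreading out of `Z` is an object `I(Z)` of the heart over `F` (independent of the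
spreading out), the motive of the invariants of the geometric Galois group in `H^0(Z)`, and
`Hom(G(A), Z) = Hom(A, I(Z))` for `A` in the heart. So the cohomology is faithful on morphisms from
degrees `≤ 0` to degrees `≥ 0`, and conservative. A perfect pairing `Z ⊗ Z' ⟶ 𝟙` induces, by
semisimplicity, a perfect pairing of the motives `I(Z)` and `I(Z')` over `F`; applied to the form
`(a, b) ↦ tr(a L b L)` this shows that the inverse of the hard Lefschetz isomorphism between the
lowest and the highest cohomology of a Chow motive is a morphism of motives; hence Chow motives over
`K` have a decomposition with components in one degree. If `M` has cohomology in degrees `≥ 0`, with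
`H^0(M) ≠ 0`, then there is a Chow motive `S`, in one degree, with a non-zero equivariant map from
its cohomology to `H^0(M)`. Let `D = I(S ⊗ Sᘁ)`, an algebra in the heart over `F`. It is separable:
the Casimir element of its trace form is a morphism `𝟙 ⟶ D ⊗ D`. So `I(M ⊗ Sᘁ) ⊗_D S` is a direct
summand of `I(M ⊗ Sᘁ) ⊗ S`, and it is a motivic subobject of `H^0(M)`. This implies the existence of
the t-structure over `K`, for one `l` and then for all `l`. The general extension is an algebraic
extension of a purely transcendental one.
-/

set_option autoImplicit false
set_option linter.checkUnivs false

open CategoryTheory

universe v u w x y

namespace Pool.Agent.Results.MP_6d0ce9_ag.PrimeFields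

open Pool.Agent.Y116.MT Pool.Agent.U435.UD Pool.Agent.U735.SO

/-- There is a motivic t-structure over `F` if and only if there is one over all extensions
of `F`. -/
theorem result (F : Type x) [Field F] (Λ : Type) [Nonempty Λ] (E : Λ → Type w)
    [∀ l, Field (E l)] (𝓜 : FieldSystem.{v, u, w, x} F Λ E)
    (h : ∀ (K : Type x) [Field K] [Algebra F K], PurelyTr F K →
      ∃ l : Λ, Nonempty (FunctionFieldData.{v, u, w, y} (𝓜.mot F) (𝓜.mot K) l)) :
    HasMotivic (𝓜.mot F) ↔ ∀ (K : Type x) [Field K] [Algebra F K], HasMotivic (𝓜.mot K) :=
  𝓜.iff_base h

end Pool.Agent.Results.MP_6d0ce9_ag.PrimeFields
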