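import Pool.Agent.U435.UD.Sys

/-!
# The motivic t-structure and extensions of fields (MP_6d0ce9_ag)

Let `F` be a field, for instance a prime field. `FieldMotives F Λ E` consists of the categories of
constructible motives over all extensions `K` of `F`, with their realisations and with the known
properties of the base change functors. We prove that the existence of a motivic t-structure over
one algebraically closed field `Ω` of infinite transcendence degree over `F` is equivalent to the
existence over all extensions of `F`, and to the existence over all purely transcendental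
extensions of `F` of finite transcendence degree.
-/

set_option autoImplicit false
set_option linter.checkUnivs false

open CategoryTheory

namespace Pool.Agent.Results.MP_6d0ce9_ag.UniversalDomain

open Pool.Agent.Y116.MT Pool.Agent.U435.UD

universe v u w x

theorem result (F : Type x) [Field F] (Λ : Type) [Nonempty Λ] (E : Λ → Type w)
    [∀ l, Field (E l)] (𝓜 : FieldMotives.{v, u, w, x} F Λ E) :
    -- (1) descent to subfields
    (∀ (K L : Type x) [Field K] [Algebra F K] [Field L] [Algebra F L] (_ : K →ₐ[F] L),
      HasMotivic (𝓜.mot L) → HasMotivic (𝓜.mot K)) ∧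
    -- (2) algebraic extensions
    (∀ (K L : Type x) [Field K] [Algebra F K] [Field L] [Algebra F L] [Algebra K L]
      [IsScalarTower F K L] [Algebra.IsAlgebraic K L],
      HasMotivic (𝓜.mot K) ↔ HasMotivic (𝓜.mot L)) ∧
    -- (3) reduction to one universal domain, and to purely transcendental extensions
    (∀ (Ω : Type x) [Field Ω] [Algebra F Ω] [IsAlgClosed Ω], InfTr F Ω →
      List.TFAE [HasMotivic (𝓜.mot Ω),
        ∀ (K : Type x) [Field K] [Algebra F K], HasMotivic (𝓜.mot K),
        ∀ (K : Type x) [Field K] [Algebra F K], PurelyTr F K → HasMotivic (𝓜.mot K)]) ∧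
    -- (4) the base change is t-exact and detects the degrees
    (∀ (K L : Type x) [Field K] [Algebra F K] [Field L] [Algebra F L] (f : K →ₐ[F] L)
      (t : Triangulated.TStructure (𝓜.mot K).C) (t' : Triangulated.TStructure (𝓜.mot L).C),
      IsMotivic t (𝓜.mot K).R → IsMotivic t' (𝓜.mot L).R → ∀ (n : ℤ) (X : (𝓜.mot K).C),
        (t.le n X ↔ t'.le n ((𝓜.bc f).F.obj X)) ∧ (t.ge n X ↔ t'.ge n ((𝓜.bc f).F.obj X))) :=
  ⟨fun _ _ _ _ _ _ f h => 𝓜.desc f h, fun K L _ _ _ _ _ _ _ => 𝓜.alg K L,
    fun Ω _ _ _ hΩ => 𝓜.universal Ω hΩ,
    fun _ _ _ _ _ _ f _ _ ht ht' n X => exact (𝓜.bc f) ht ht' n X⟩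

end Pool.Agent.Results.MP_6d0ce9_ag.UniversalDomain
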